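import Mathlib

namespace Pool.Agent.H17Z.Tet

/-- Euclidean 3-space. -/
abbrev E3 := EuclideanSpace ℝ (Fin 3)

/-- A tetrahedron: a 4-element set of points of `ℝ³` not lying in a plane. -/
def IsTet (T : Finset E3) : Prop := T.card = 4 ∧ ¬ Coplanar ℝ (T : Set E3)

/-- `T'` is the image of `T` under an isometry of `ℝ³` followed by a scaling `x ↦ l • x`,
`l > 0`. -/
def Similar (T T' : Finset E3) : Prop :=
  ∃ (φ : E3 ≃ᵢ E3) (l : ℝ), 0 < l ∧ (T' : Set E3) = (fun x => l • φ x) '' (T : Set E3)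

/-- `s(P,T)`: the number of 4-element subsets of `P` that are tetrahedra similar to `T`. -/
noncomputable def simCount (P T : Finset E3) : ℕ :=
  {S : Finset E3 | S ⊆ P ∧ IsTet S ∧ Similar T S}.ncard

/-- `f(n)`: the maximum of `s(P,T)` over `n`-point sets `P` and tetrahedra `T`. -/
noncomputable def f (n : ℕ) : ℕ :=
  sSup {k : ℕ | ∃ P T : Finset E3, P.card = n ∧ IsTet T ∧ k = simCount P T}

end Pool.Agent.H17Z.Tet
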