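import Pool.Agent.H17Z.Tet.Defs

namespace Pool.Agent.H17Z.Tet

open Finset

/-- integer rotation-dilation matrix of the quaternion `a+bi+cj+dk` -/
def Mq (q : Fin 4 → ℤ) : Fin 3 → Fin 3 → ℤ :=
  ![![q 0^2+q 1^2-q 2^2-q 3^2, 2*(q 1*q 2-q 0*q 3), 2*(q 1*q 3+q 0*q 2)],
    ![2*(q 1*q 2+q 0*q 3), q 0^2-q 1^2+q 2^2-q 3^2, 2*(q 2*q 3-q 0*q 1)],
    ![2*(q 1*q 3-q 0*q 2), 2*(q 2*q 3+q 0*q 1), q 0^2-q 1^2-q 2^2+q 3^2]]

def Nq (q : Fin 4 → ℤ) : ℤ := q 0^2+q 1^2+q 2^2+q 3^2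

noncomputable def emb (x : Fin 3 → ℤ) : E3 := WithLp.toLp 2 (fun i => (x i : ℝ))

lemma emb_apply (x : Fin 3 → ℤ) (i : Fin 3) : emb x i = (x i : ℝ) := rfl

lemma emb_inj : Function.Injective emb := by
  intro x y h
  funext i
  have := congrArg (fun v : E3 => v i) h
  simpa [emb_apply] using this

/-- integer vertices -/
def vert (x : Fin 3 → ℤ) (q : Fin 4 → ℤ) : Fin 4 → (Fin 3 → ℤ) :=
  ![x, fun i => x i + Mq q i 0, fun i => x i + Mq q i 1, fun i => x i + Mq q i 2]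

noncomputable def tet (x : Fin 3 → ℤ) (q : Fin 4 → ℤ) : Finset E3 := by
  classical exact univ.image (fun j => emb (vert x q j))

noncomputable def rotL (q : Fin 4 → ℤ) : E3 →ₗ[ℝ] E3 where
  toFun y := WithLp.toLp 2 (fun i => ((Mq q i 0 : ℝ) * y 0 + (Mq q i 1 : ℝ) * y 1
      + (Mq q i 2 : ℝ) * y 2) / (Nq q : ℝ))
  map_add' y z := by
    ext i; simp; ring
  map_smul' c y := by
    ext i; simp; ring

lemma rotL_apply (q : Fin 4 → ℤ) (y : E3) (i : Fin 3) : rotL q y i =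
    ((Mq q i 0 : ℝ) * y 0 + (Mq q i 1 : ℝ) * y 1 + (Mq q i 2 : ℝ) * y 2) / (Nq q : ℝ) := rfl

lemma rotL_norm (q : Fin 4 → ℤ) (hq : 0 < Nq q) (y : E3) : ‖rotL q y‖ = ‖y‖ := by
  have hN : (Nq q : ℝ) ≠ 0 := by exact_mod_cast hq.ne'
  rw [EuclideanSpace.norm_eq, EuclideanSpace.norm_eq]
  congr 1
  simp only [Fin.sum_univ_three, Real.norm_eq_abs, sq_abs, rotL_apply]
  field_simp
  simp [Mq, Nq]
  ring

noncomputable def rotI (q : Fin 4 → ℤ) (hq : 0 < Nq q) : E3 ≃ₗᵢ[ℝ] E3 :=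
  LinearIsometry.toLinearIsometryEquiv ⟨rotL q, rotL_norm q hq⟩ rfl

lemma rotI_apply (q : Fin 4 → ℤ) (hq : 0 < Nq q) (y : E3) : rotI q hq y = rotL q y := rfl

def one4 : Fin 4 → ℤ := ![1,0,0,0]

lemma similar_tet (x : Fin 3 → ℤ) (q : Fin 4 → ℤ) (hq : 0 < Nq q) :
    Similar (tet 0 one4) (tet x q) := by
  have hN : (Nq q : ℝ) ≠ 0 := by exact_mod_cast hq.ne'
  refine ⟨(rotI q hq).toIsometryEquiv.trans (IsometryEquiv.addRight ((Nq q : ℝ)⁻¹ • emb x)),
    (Nq q : ℝ), by exact_mod_cast hq, ?_⟩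
  simp only [tet, coe_image, coe_univ, Set.image_image]
  apply Set.image_congr
  intro j _
  ext i
  simp only [IsometryEquiv.trans_apply, IsometryEquiv.addRight_apply,
    LinearIsometryEquiv.coe_toIsometryEquiv, rotI_apply, PiLp.smul_apply, PiLp.add_apply,
    rotL_apply, emb_apply, smul_eq_mul]
  field_simp
  fin_cases j <;> simp [vert, one4, Mq] <;> ring

lemma cols_orth (q : Fin 4 → ℤ) (g : Fin 3 → ℝ) (hq : 0 < Nq q)
    (h : ∀ i, (Mq q i 0 : ℝ) * g 0 + (Mq q i 1 : ℝ) * g 1 + (Mq q i 2 : ℝ) * g 2 = 0) :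
    ∀ j, g j = 0 := by
  have hN : (Nq q : ℝ) ≠ 0 := by exact_mod_cast hq.ne'
  have h1 := rotL_norm q hq (WithLp.toLp 2 g)
  have h2 : rotL q (WithLp.toLp 2 g) = 0 := by
    ext i
    rw [rotL_apply]
    simp [h i]
  rw [h2, norm_zero] at h1
  have h3 : (WithLp.toLp 2 g : E3) = 0 := norm_eq_zero.mp h1.symm
  intro j
  have := congrArg (fun v : E3 => v j) h3
  simpa using this

lemma vert_inj (x : Fin 3 → ℤ) (q : Fin 4 → ℤ) (hq : 0 < Nq q) :
    Function.Injective (vert x q) := by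
  have key : ∀ g : Fin 3 → ℤ, (∀ i, Mq q i 0 * g 0 + Mq q i 1 * g 1 + Mq q i 2 * g 2 = 0) →
      ∀ j, g j = 0 := by
    intro g hg j
    have := cols_orth q (fun j => (g j : ℝ)) hq (fun i => by exact_mod_cast hg i) j
    exact_mod_cast this
  let w : Fin 4 → Fin 3 → ℤ := ![![0,0,0],![1,0,0],![0,1,0],![0,0,1]]
  have hv : ∀ j i, vert x q j i = x i + (Mq q i 0 * w j 0 + Mq q i 1 * w j 1 + Mq q i 2 * w j 2) := by
    intro j i
    fin_cases j <;> simp [vert, w]
  intro j k hjk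
  have h0 := key (fun t => w j t - w k t) (fun i => by
    have := congrFun hjk i
    rw [hv, hv] at this
    linear_combination this)
  have hw : Function.Injective w := by decide
  apply hw
  funext t
  have := h0 t
  linarith

lemma isTet_tet (x : Fin 3 → ℤ) (q : Fin 4 → ℤ) (hq : 0 < Nq q) : IsTet (tet x q) := by
  classical
  constructor
  · unfold tet
    have := card_image_of_injective univ (emb_inj.comp (vert_inj x q hq))
    simpa [Function.comp_def] using this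
  · intro hc
    let v : Fin 3 → E3 := fun j => emb (vert x q j.succ) - emb (vert x q 0)
    have hmem : ∀ j, v j ∈ vectorSpan ℝ ((tet x q : Finset E3) : Set E3) := by
      intro j
      apply vsub_mem_vectorSpan ℝ <;> simp [tet]
    have hli : LinearIndependent ℝ v := by
      rw [Fintype.linearIndependent_iff]
      intro g hg
      apply cols_orth q g hq
      intro i
      have := congrArg (fun u : E3 => u i) hg
      simp [Fin.sum_univ_three, v, emb_apply, vert] at this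
      linarith
    have hli' : LinearIndependent ℝ (fun j => (⟨v j, hmem j⟩ :
        vectorSpan ℝ ((tet x q : Finset E3) : Set E3))) :=
      LinearIndependent.of_comp (Submodule.subtype _) hli
    have h3 := hli'.cardinal_le_rank
    have h2 : Module.rank ℝ (vectorSpan ℝ ((tet x q : Finset E3) : Set E3)) ≤ 2 := hc
    have := h3.trans h2
    simp at this
    norm_cast at this

lemma vert_determines (x x' : Fin 3 → ℤ) (q q' : Fin 4 → ℤ) (hq : ∀ i, 0 < q i)
    (hq' : ∀ i, 0 < q' i) (h : vert x q = vert x' q') : x = x' ∧ q = q' := by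
  have hx : x = x' := by simpa [vert] using congrFun h 0
  subst hx
  refine ⟨rfl, ?_⟩
  have hM : ∀ i j, Mq q i j = Mq q' i j := by
    intro i j
    have := congrFun (congrFun h j.succ) i
    fin_cases j <;> simpa [vert] using this
  have e01 := hM 0 1
  have e02 := hM 0 2
  have e10 := hM 1 0
  have e12 := hM 1 2
  have e20 := hM 2 0
  have e21 := hM 2 1
  simp [Mq] at e01 e02 e10 e12 e20 e21
  have hab : q 0 * q 1 = q' 0 * q' 1 := by linarith
  have hac : q 0 * q 2 = q' 0 * q' 2 := by linarith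
  have had : q 0 * q 3 = q' 0 * q' 3 := by linarith
  have hbc : q 1 * q 2 = q' 1 * q' 2 := by linarith
  have p0 := hq 0
  have p1 := hq 1
  have p2 := hq 2
  have p0' := hq' 0
  have hsq : q 0 ^ 2 * (q 1 * q 2) = q' 0 ^ 2 * (q 1 * q 2) := by
    calc q 0 ^ 2 * (q 1 * q 2) = (q 0 * q 1) * (q 0 * q 2) := by ring
      _ = (q' 0 * q' 1) * (q' 0 * q' 2) := by rw [hab, hac]
      _ = q' 0 ^ 2 * (q' 1 * q' 2) := by ring
      _ = q' 0 ^ 2 * (q 1 * q 2) := by rw [hbc]
  have hsq' : q 0 ^ 2 = q' 0 ^ 2 := mul_right_cancel₀ (mul_pos p1 p2).ne' hsq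
  have h0 : q 0 = q' 0 := by
    have := (sq_eq_sq₀ p0.le p0'.le).mp hsq'
    exact this
  rw [← h0] at hab hac had
  funext i
  fin_cases i
  · exact h0
  · exact mul_left_cancel₀ p0.ne' hab
  · exact mul_left_cancel₀ p0.ne' hac
  · exact mul_left_cancel₀ p0.ne' had

lemma Mq_bound (K : ℤ) (q : Fin 4 → ℤ) (h : ∀ i, 1 ≤ q i ∧ q i ≤ K) (i j : Fin 3) :
    -(4*K^2) ≤ Mq q i j ∧ Mq q i j ≤ 4*K^2 := by
  have b : ∀ s t, 0 ≤ q s * q t ∧ q s * q t ≤ K^2 := by
    intro s t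
    obtain ⟨h1, h2⟩ := h s
    obtain ⟨h3, h4⟩ := h t
    constructor
    · positivity
    · nlinarith
  have b00 := b 0 0
  have b11 := b 1 1
  have b22 := b 2 2
  have b33 := b 3 3
  have b01 := b 0 1
  have b02 := b 0 2
  have b03 := b 0 3
  have b12 := b 1 2
  have b13 := b 1 3
  have b23 := b 2 3
  fin_cases i <;> fin_cases j <;> simp [Mq] <;> constructor <;> nlinarith

lemma simCount_le (P T : Finset E3) : simCount P T ≤ 2 ^ P.card := by
  classical
  unfold simCount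
  rw [← card_powerset, ← Set.ncard_coe_finset]
  apply Set.ncard_le_ncard _ (finite_toSet _)
  intro S hS
  simpa using hS.1

lemma le_f (P T : Finset E3) (hT : IsTet T) : simCount P T ≤ f P.card := by
  apply le_csSup
  · refine ⟨2 ^ P.card, ?_⟩
    rintro k ⟨P', T', h1, _, rfl⟩
    rw [← h1]; exact simCount_le _ _
  · exact ⟨P, T, rfl, hT, rfl⟩

lemma count (K : ℕ) (P : Finset E3)
    (hP : ∀ y : Fin 3 → ℤ, (∀ i, 0 ≤ y i ∧ y i ≤ 12 * (K:ℤ)^2) → emb y ∈ P) :
    K ^ 10 ≤ 4 * simCount P (tet 0 one4) := by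
  classical
  let X : Finset (Fin 3 → ℤ) := Fintype.piFinset fun _ => Ico (4 * (K:ℤ)^2) (8 * (K:ℤ)^2)
  let Q : Finset (Fin 4 → ℤ) := Fintype.piFinset fun _ => Icc (1:ℤ) K
  have hX : X.card = 64 * K ^ 6 := by
    simp only [X, Fintype.card_piFinset, Int.card_Ico, prod_const, card_univ, Fintype.card_fin]
    have : (8 * (K:ℤ)^2 - 4 * (K:ℤ)^2) = ((4 * K^2 : ℕ) : ℤ) := by push_cast; ring
    rw [this, Int.toNat_natCast]; ring
  have hQ : Q.card = K ^ 4 := by
    simp [Q, Fintype.card_piFinset]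
  have hQm : ∀ q ∈ Q, ∀ i, 1 ≤ q i ∧ q i ≤ K := by
    intro q hq i
    simpa using Fintype.mem_piFinset.mp hq i
  have hN : ∀ q ∈ Q, 0 < Nq q := by
    intro q hq
    have := (hQm q hq 0).1
    unfold Nq
    positivity
  let F : (Fin 3 → ℤ) × (Fin 4 → ℤ) → Finset E3 := fun p => tet p.1 p.2
  have hfib : ∀ S ∈ (X ×ˢ Q).image F, ((X ×ˢ Q).filter (fun p => F p = S)).card ≤ 256 := by
    intro S hS
    obtain ⟨p0, hp0, rfl⟩ := mem_image.mp hS
    have hc : (F p0).card = 4 := (isTet_tet _ _ (hN _ (mem_product.mp hp0).2)).1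
    have : (Fintype.piFinset fun _ : Fin 4 => F p0).card = 256 := by
      simp [Fintype.card_piFinset, hc]
    rw [← this]
    apply card_le_card_of_injOn (fun p j => emb (vert p.1 p.2 j))
    · intro p hp
      have hp' := mem_filter.mp (mem_coe.mp hp)
      simp only [mem_coe, Fintype.mem_piFinset]
      intro j
      rw [← hp'.2]
      simp [F, tet]
    · intro p hp p' hp' hpp
      have h1 := (mem_product.mp (mem_filter.mp (mem_coe.mp hp)).1).2
      have h2 := (mem_product.mp (mem_filter.mp (mem_coe.mp hp')).1).2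
      have := vert_determines p.1 p'.1 p.2 p'.2 (fun i => by have := (hQm _ h1 i).1; omega)
        (fun i => by have := (hQm _ h2 i).1; omega)
        (funext fun j => emb_inj (congrFun hpp j))
      exact Prod.ext this.1 this.2
  have h1 := card_le_mul_card_image (X ×ˢ Q) 256 hfib
  rw [card_product, hX, hQ] at h1
  have h2 : ((X ×ˢ Q).image F).card ≤ simCount P (tet 0 one4) := by
    unfold simCount
    rw [← Set.ncard_coe_finset]
    apply Set.ncard_le_ncard
    · intro S hS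
      obtain ⟨p, hp, rfl⟩ := mem_image.mp (mem_coe.mp hS)
      have hx := (mem_product.mp hp).1
      have hq := (mem_product.mp hp).2
      refine ⟨?_, isTet_tet _ _ (hN _ hq), similar_tet _ _ (hN _ hq)⟩
      intro z hz
      simp only [F, tet, mem_image, mem_univ, true_and] at hz
      obtain ⟨j, rfl⟩ := hz
      apply hP
      intro i
      have hxi : 4 * (K:ℤ)^2 ≤ p.1 i ∧ p.1 i < 8 * (K:ℤ)^2 := by
        simpa using Fintype.mem_piFinset.mp hx i
      have b0 := Mq_bound K p.2 (hQm _ hq) i 0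
      have b1 := Mq_bound K p.2 (hQm _ hq) i 1
      have b2 := Mq_bound K p.2 (hQm _ hq) i 2
      have hK : 0 ≤ (K:ℤ)^2 := by positivity
      fin_cases j <;> simp [vert] <;> constructor <;> linarith
    · apply Set.Finite.subset (finite_toSet P.powerset)
      intro S hS
      simpa using hS.1
  have : 64 * K ^ 10 ≤ 256 * simCount P (tet 0 one4) := by
    calc 64 * K ^ 10 = 64 * K ^ 6 * K ^ 4 := by ring
      _ ≤ _ := h1
      _ ≤ _ := Nat.mul_le_mul_left _ h2
  omega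

lemma count_f (K n : ℕ) (hK : 1 ≤ K) (hn : 2197 * K ^ 6 ≤ n) : K ^ 10 ≤ 4 * f n := by
  classical
  let C : Finset (Fin 3 → ℤ) := Fintype.piFinset fun _ => Icc (0:ℤ) (12 * (K:ℤ)^2)
  have hC : (C.image emb).card ≤ n := by
    refine card_image_le.trans (le_trans ?_ hn)
    simp only [C, Fintype.card_piFinset, Int.card_Icc, prod_const, card_univ, Fintype.card_fin]
    have : (12 * (K:ℤ)^2 + 1 - 0) = ((12 * K^2 + 1 : ℕ) : ℤ) := by push_cast; ring
    rw [this, Int.toNat_natCast]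
    have h1 : 12 * K^2 + 1 ≤ 13 * K^2 := by nlinarith
    calc (12 * K^2 + 1)^3 ≤ (13 * K^2)^3 := Nat.pow_le_pow_left h1 3
      _ = 2197 * K^6 := by ring
  have : Infinite E3 := Infinite.of_injective emb emb_inj
  obtain ⟨P, hP1, hP2⟩ := Infinite.exists_superset_card_eq (C.image emb) n hC
  have := count K P (fun y hy => hP1 (mem_image_of_mem _ (by
    simp only [C, Fintype.mem_piFinset, mem_Icc]; exact hy)))
  have h2 := le_f P (tet 0 one4) (isTet_tet _ _ (by decide))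
  rw [hP2] at h2
  omega

theorem main : ∃ c : ℝ, 0 < c ∧ ∃ N : ℕ, ∀ n ≥ N, c * (n : ℝ) ^ ((5:ℝ) / 3) ≤ (f n : ℝ) := by
  refine ⟨(1/4) * ((140608:ℝ) ^ ((5:ℝ)/3))⁻¹, by positivity, 2197, fun n hn => ?_⟩
  have hex : ∃ K : ℕ, n < 2197 * (K+1) ^ 6 := by
    refine ⟨n, ?_⟩
    have : n + 1 ≤ (n+1)^6 := Nat.le_self_pow (by norm_num) _
    omega
  classical
  let K := Nat.find hex
  have hK1 : n < 2197 * (K+1)^6 := Nat.find_spec hex
  have hK0 : 1 ≤ K := by
    by_contra h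
    have : K = 0 := by omega
    rw [this] at hK1
    omega
  have hK2 : 2197 * K ^ 6 ≤ n := by
    have := Nat.find_min hex (m := K - 1) (by omega)
    rw [show K - 1 + 1 = K by omega] at this
    omega
  have h1 := count_f K n hK0 hK2
  have h2 : n ≤ 140608 * K ^ 6 := by
    have : (K+1)^6 ≤ (2*K)^6 := Nat.pow_le_pow_left (by omega) 6
    have h3 : (2*K)^6 = 64 * K^6 := by ring
    omega
  have h3 : (n:ℝ) ≤ 140608 * (K:ℝ)^6 := by exact_mod_cast h2
  have h4 : (n:ℝ) ^ ((5:ℝ)/3) ≤ (140608 * (K:ℝ)^6) ^ ((5:ℝ)/3) :=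
    Real.rpow_le_rpow (by positivity) h3 (by norm_num)
  rw [Real.mul_rpow (by norm_num) (by positivity), ← Real.rpow_natCast,
    ← Real.rpow_mul (by positivity)] at h4
  have h5 : ((6:ℕ):ℝ) * ((5:ℝ)/3) = ((10:ℕ):ℝ) := by norm_num
  rw [h5, Real.rpow_natCast] at h4
  have h6 : (K:ℝ)^10 ≤ 4 * (f n : ℝ) := by exact_mod_cast h1
  have hp : (0:ℝ) < (140608:ℝ) ^ ((5:ℝ)/3) := by positivity
  calc (1/4) * ((140608:ℝ) ^ ((5:ℝ)/3))⁻¹ * (n:ℝ) ^ ((5:ℝ)/3)
      ≤ (1/4) * ((140608:ℝ) ^ ((5:ℝ)/3))⁻¹ * ((140608:ℝ) ^ ((5:ℝ)/3) * (K:ℝ)^10) := by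
        gcongr
    _ = (1/4) * (K:ℝ)^10 := by field_simp
    _ ≤ _ := by linarith

end Pool.Agent.H17Z.Tet
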